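import Mathlib
import Pool.Agent.L0h79.FR.Defs

/-!
# Project FR: modules LAT, NEWT, GCD, PRIM
-/

set_option autoImplicit false

namespace Pool.Agent.L0h57.FR

open Pool.Agent.L0h79.FR

/-! ### LAT -/

/-- LAT -/
theorem lat : S_LAT := by
  classical
  intro K _ m I _ a
  let S : Finset (Fin m → ℝ) := Finset.univ.biUnion fun i => (a i).coeff.support
  let N : Submodule ℤ (Fin m → ℝ) := Submodule.span ℤ (S : Set (Fin m → ℝ))
  have : Module.Finite ℤ N := Module.Finite.span_of_finite ℤ S.finite_toSet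
  let B := Module.finBasis ℤ N
  let φ : (Fin (Module.finrank ℤ N) → ℤ) →+ (Fin m → ℝ) :=
    (N.subtype.comp B.equivFun.symm.toLinearMap).toAddMonoidHom
  have hφ : Function.Injective φ := by
    intro x y hxy
    exact B.equivFun.symm.injective (Subtype.val_injective hxy)
  refine ⟨Module.finrank ℤ N, φ, hφ, fun i => AddMonoidAlgebra.comapDomain φ hφ (a i), ?_⟩
  intro i
  refine (AddMonoidAlgebra.mapDomain_comapDomain ?_ hφ).symm
  intro n hn
  have hnS : n ∈ N := Submodule.subset_span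
    (Finset.mem_coe.2 (Finset.mem_biUnion.2 ⟨i, Finset.mem_univ _, hn⟩))
  refine ⟨B.equivFun ⟨n, hnS⟩, ?_⟩
  show ((B.equivFun.symm (B.equivFun ⟨n, hnS⟩) : N) : Fin m → ℝ) = n
  rw [LinearEquiv.symm_apply_apply]

/-! ### NEWT -/

section newt

variable {K : Type} [Field K] {d : ℕ}

/-- the part of `f` on which `h` is `μ` -/
noncomputable def prt (h : (Fin d → ℤ) →+ ℤ) (μ : ℤ) (f : AddMonoidAlgebra K (Fin d → ℤ)) :
    AddMonoidAlgebra K (Fin d → ℤ) :=
  AddMonoidAlgebra.ofCoeff (f.coeff.filter fun n => h n = μ)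

theorem prt_coeff (h : (Fin d → ℤ) →+ ℤ) (μ : ℤ) (f : AddMonoidAlgebra K (Fin d → ℤ))
    (n : Fin d → ℤ) : (prt h μ f).coeff n = if h n = μ then f.coeff n else 0 := by
  unfold prt
  rw [AddMonoidAlgebra.coeff_ofCoeff, Finsupp.filter_apply]

theorem mul_supp {f g : AddMonoidAlgebra K (Fin d → ℤ)} {n : Fin d → ℤ}
    (h : (f * g).coeff n ≠ 0) : ∃ x y, f.coeff x ≠ 0 ∧ g.coeff y ≠ 0 ∧ x + y = n := by
  classical
  have h1 := AddMonoidAlgebra.support_coeff_mul_subset f g (Finsupp.mem_support_iff.2 h)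
  obtain ⟨x, hx, y, hy, hxy⟩ := Finset.mem_add.1 h1
  exact ⟨x, y, Finsupp.mem_support_iff.1 hx, Finsupp.mem_support_iff.1 hy, hxy⟩

theorem low (h : (Fin d → ℤ) →+ ℤ) (Q b : AddMonoidAlgebra K (Fin d → ℤ)) (μ ν : ℤ)
    (hQ : ∀ n, Q.coeff n ≠ 0 → μ ≤ h n) (hQ' : ∃ n, Q.coeff n ≠ 0 ∧ h n = μ)
    (hb : ∀ n, b.coeff n ≠ 0 → ν ≤ h n) (hb' : ∃ n, b.coeff n ≠ 0 ∧ h n = ν) :
    ∃ n, (Q * b).coeff n ≠ 0 ∧ h n = μ + ν := by
  have h1 : prt h μ Q ≠ 0 := by
    obtain ⟨n, hn, hn2⟩ := hQ'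
    intro h0
    have h2 := prt_coeff h μ Q n
    rw [h0, if_pos hn2] at h2
    exact hn h2.symm
  have h2 : prt h ν b ≠ 0 := by
    obtain ⟨n, hn, hn2⟩ := hb'
    intro h0
    have h2 := prt_coeff h ν b n
    rw [h0, if_pos hn2] at h2
    exact hn h2.symm
  have h3 : prt h μ Q * prt h ν b ≠ 0 := mul_ne_zero h1 h2
  obtain ⟨n, hn⟩ : ∃ n, (prt h μ Q * prt h ν b).coeff n ≠ 0 := by
    by_contra hcon
    push Not at hcon
    apply h3
    ext n
    rw [hcon n]
    rfl
  obtain ⟨x, y, hx, hy, hxy⟩ := mul_supp hn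
  have hx' : h x = μ := by
    by_contra hc
    rw [prt_coeff, if_neg hc] at hx
    exact hx rfl
  have hy' : h y = ν := by
    by_contra hc
    rw [prt_coeff, if_neg hc] at hy
    exact hy rfl
  have hhn : h n = μ + ν := by rw [← hxy, map_add, hx', hy']
  refine ⟨n, ?_, hhn⟩
  have e : Q * b = prt h μ Q * prt h ν b + (prt h μ Q * (b - prt h ν b) +
      (Q - prt h μ Q) * b) := by ring
  have hsub : ∀ (f : AddMonoidAlgebra K (Fin d → ℤ)) (ρ : ℤ) (k : Fin d → ℤ),
      (f - prt h ρ f).coeff k = if h k = ρ then 0 else f.coeff k := by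
    intro f ρ k
    have e1 : (f - prt h ρ f).coeff k = f.coeff k - (prt h ρ f).coeff k := rfl
    rw [e1, prt_coeff]
    split_ifs
    · rw [sub_self]
    · rw [sub_zero]
  have z1 : (prt h μ Q * (b - prt h ν b)).coeff n = 0 := by
    by_contra hc
    obtain ⟨x, y, hx, hy, hxy⟩ := mul_supp hc
    have hx' : h x = μ := by
      by_contra hc
      rw [prt_coeff, if_neg hc] at hx
      exact hx rfl
    rw [hsub] at hy
    have hy1 : h y ≠ ν := by
      intro hc
      rw [if_pos hc] at hy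
      exact hy rfl
    rw [if_neg hy1] at hy
    have hy2 := hb y hy
    rw [← hxy, map_add, hx'] at hhn
    omega
  have z2 : ((Q - prt h μ Q) * b).coeff n = 0 := by
    by_contra hc
    obtain ⟨x, y, hx, hy, hxy⟩ := mul_supp hc
    rw [hsub] at hx
    have hx1 : h x ≠ μ := by
      intro hc
      rw [if_pos hc] at hx
      exact hx rfl
    rw [if_neg hx1] at hx
    have hx2 := hQ x hx
    have hy2 := hb y hy
    rw [← hxy, map_add] at hhn
    omega
  have e2 : (Q * b).coeff n = (prt h μ Q * prt h ν b).coeff n +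
      ((prt h μ Q * (b - prt h ν b)).coeff n + ((Q - prt h μ Q) * b).coeff n) := by
    conv_lhs => rw [e]
    rfl
  rw [e2, z1, z2, add_zero, add_zero]
  exact hn

end newt

/-- NEWT -/
theorem newt : S_NEWT := by
  intro K _ d I _ b hi hsupp hmin hmax Q R hQR n hn t
  have hne : Q.coeff.support.Nonempty := ⟨n, Finsupp.mem_support_iff.2 hn⟩
  constructor
  · obtain ⟨q, hq, hqmin⟩ := Finset.exists_min_image Q.coeff.support (fun k => k t) hne
    obtain ⟨i, k, hk, hk0⟩ := hmin t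
    obtain ⟨l, hl, hl2⟩ := low (Pi.evalAddMonoidHom (fun _ : Fin d => ℤ) t) Q (b i) (q t) 0
      (fun k hk => hqmin k (Finsupp.mem_support_iff.2 hk))
      ⟨q, Finsupp.mem_support_iff.1 hq, rfl⟩ (fun k hk => (hsupp i k hk t).1) ⟨k, hk, hk0⟩
    have h1 := (hQR i l hl t).1
    have h2 : l t = q t + 0 := hl2
    have h3 : q t ≤ n t := hqmin n (Finsupp.mem_support_iff.2 hn)
    omega
  · obtain ⟨q, hq, hqmax⟩ := Finset.exists_max_image Q.coeff.support (fun k => k t) hne
    obtain ⟨i, k, hk, hk0⟩ := hmax t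
    obtain ⟨l, hl, hl2⟩ := low (-(Pi.evalAddMonoidHom (fun _ : Fin d => ℤ) t)) Q (b i) (-(q t))
      (-(hi t)) (fun k hk => by
        show -(q t) ≤ -(k t)
        have : k t ≤ q t := hqmax k (Finsupp.mem_support_iff.2 hk)
        omega)
      ⟨q, Finsupp.mem_support_iff.1 hq, rfl⟩ (fun k hk => by
        show -(hi t) ≤ -(k t)
        have := (hsupp i k hk t).2
        omega) ⟨k, hk, by
        show -(k t) = -(hi t)
        rw [hk0]⟩
    have h1 := (hQR i l hl t).2
    have h2 : -(l t) = -(q t) + -(hi t) := hl2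
    have h3 : n t ≤ q t := hqmax n (Finsupp.mem_support_iff.2 hn)
    omega

/-! ### GCD -/

section gcd

variable {K : Type} [Field K] {d : ℕ}

/-- the inclusion of the exponents of polynomials -/
def psi (d : ℕ) : (Fin d →₀ ℕ) →+ (Fin d → ℤ) where
  toFun n t := (n t : ℤ)
  map_zero' := by funext t; simp
  map_add' x y := by funext t; simp

theorem psi_inj (d : ℕ) : Function.Injective (psi d) := by
  intro x y h
  ext t
  have h2 : ((x t : ℕ) : ℤ) = ((y t : ℕ) : ℤ) := congrFun h t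
  exact_mod_cast h2

/-- polynomials as Laurent polynomials -/
noncomputable def io (K : Type) [Field K] (d : ℕ) :
    MvPolynomial (Fin d) K →+* AddMonoidAlgebra K (Fin d → ℤ) :=
  AddMonoidAlgebra.mapDomainRingHom K (psi d)

theorem io_inj : Function.Injective (io K d) :=
  AddMonoidAlgebra.mapDomain_injective (psi_inj d)

/-- finitely many Laurent polynomials are multiples of polynomials by a monomial -/
theorem shift {I : Type} [Fintype I] (a : I → AddMonoidAlgebra K (Fin d → ℤ)) :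
    ∃ (s : Fin d → ℤ) (f : I → MvPolynomial (Fin d) K),
      ∀ i, AddMonoidAlgebra.single s 1 * a i = io K d (f i) := by
  let s : Fin d → ℤ := fun t => ∑ i, ∑ n ∈ (a i).coeff.support, |n t|
  have hs : ∀ i n, (a i).coeff n ≠ 0 → ∀ t, 0 ≤ s t + n t := by
    intro i n hn t
    have h1 : |n t| ≤ ∑ n ∈ (a i).coeff.support, |n t| :=
      Finset.single_le_sum (f := fun n : Fin d → ℤ => |n t|) (fun _ _ => abs_nonneg _)
        (Finsupp.mem_support_iff.2 hn)
    have h2 : ∑ n ∈ (a i).coeff.support, |n t| ≤ s t :=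
      Finset.single_le_sum (f := fun i => ∑ n ∈ (a i).coeff.support, |n t|)
        (fun _ _ => Finset.sum_nonneg fun _ _ => abs_nonneg _) (Finset.mem_univ i)
    have h3 := neg_abs_le (n t)
    linarith
  have key : ∀ i, ∃ f : MvPolynomial (Fin d) K,
      AddMonoidAlgebra.single s 1 * a i = io K d f := by
    intro i
    refine ⟨AddMonoidAlgebra.comapDomain (psi d) (psi_inj d)
      (AddMonoidAlgebra.single s 1 * a i), ?_⟩
    refine (AddMonoidAlgebra.mapDomain_comapDomain ?_ (psi_inj d)).symm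
    intro n hn
    obtain ⟨x, y, hx, hy, hxy⟩ := mul_supp (Finsupp.mem_support_iff.1 hn)
    have hxs : x = s := by
      by_contra hc
      apply hx
      rw [AddMonoidAlgebra.coeff_single, Finsupp.single_apply, if_neg (Ne.symm hc)]
    refine ⟨Finsupp.equivFunOnFinite.symm fun t => (n t).toNat, ?_⟩
    funext t
    show (((n t).toNat : ℕ) : ℤ) = n t
    rw [Int.toNat_of_nonneg]
    rw [← hxy, hxs]
    exact hs i y hy t
  choose f hf using key
  exact ⟨s, f, hf⟩

theorem single_cancel (s : Fin d → ℤ) (a : AddMonoidAlgebra K (Fin d → ℤ)) :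
    AddMonoidAlgebra.single (-s) 1 * (AddMonoidAlgebra.single s 1 * a) = a := by
  rw [← mul_assoc, AddMonoidAlgebra.single_mul_single, neg_add_cancel, one_mul,
    ← AddMonoidAlgebra.one_def, one_mul]

end gcd

/-- GCD -/
theorem gcd : S_GCD := by
  classical
  intro K _ d I _ a ha
  obtain ⟨i0, hi0⟩ := ha
  let _ : StrongNormalizationMonoid (MvPolynomial (Fin d) K) :=
    UniqueFactorizationMonoid.strongNormalizationMonoid
  let _ : NormalizedGCDMonoid (MvPolynomial (Fin d) K) :=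
    UniqueFactorizationMonoid.toNormalizedGCDMonoid _
  obtain ⟨s, f, hf⟩ := shift a
  obtain ⟨g, hg, hg1⟩ := Finset.extract_gcd f (s := Finset.univ) ⟨i0, Finset.mem_univ _⟩
  set G0 := Finset.univ.gcd f with hG0
  have ha' : ∀ i, a i = (AddMonoidAlgebra.single (-s) 1 * io K d G0) * io K d (g i) := by
    intro i
    rw [mul_assoc, ← map_mul, ← hg i (Finset.mem_univ _), ← hf i, single_cancel]
  have hG : AddMonoidAlgebra.single (-s) 1 * io K d G0 ≠ 0 := by
    intro h
    apply hi0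
    rw [ha' i0, h, zero_mul]
  have hgi0 : g i0 ≠ 0 := by
    intro h
    apply hi0
    rw [ha' i0, h, map_zero, mul_zero]
  refine ⟨AddMonoidAlgebra.single (-s) 1 * io K d G0, fun i => io K d (g i), hG, ha', ?_⟩
  intro c hc
  obtain ⟨t, e, he⟩ := shift c
  have hcross : ∀ i j, e i * g j = e j * g i := by
    intro i j
    apply io_inj (K := K)
    rw [map_mul, map_mul, ← he i, ← he j, mul_assoc, mul_assoc, hc i j]
  have hdvd : g i0 ∣ e i0 := by
    have h1 : g i0 ∣ Finset.univ.gcd (fun j => e i0 * g j) := by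
      refine Finset.dvd_gcd fun j _ => ?_
      rw [hcross i0 j]
      exact Dvd.intro_left _ rfl
    have h2 : Associated (Finset.univ.gcd (fun j => e i0 * g j)) (e i0 * Finset.univ.gcd g) :=
      Finset.gcd_mul_left' Finset.univ g (e i0)
    rw [hg1, mul_one] at h2
    exact h1.trans h2.dvd
  obtain ⟨Q, hQ⟩ := hdvd
  have he' : ∀ i, e i = Q * g i := by
    intro i
    apply mul_right_cancel₀ hgi0
    rw [hcross i i0, hQ]
    ring
  refine ⟨AddMonoidAlgebra.single (-t) 1 * io K d Q, ?_⟩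
  intro i
  rw [mul_assoc, ← map_mul, ← he' i, ← he i, single_cancel]

/-! ### PRIM -/

/-- PRIM -/
theorem prim (h1 : S_LAT) (h2 : S_GCD) : S_PRIM := by
  intro K _ m I _ a ha
  obtain ⟨d, φ, hφ, a', ha'⟩ := h1 K m I a
  obtain ⟨i0, hi0⟩ := ha
  have hne : ∃ i, a' i ≠ 0 := by
    refine ⟨i0, fun h => hi0 ?_⟩
    rw [ha' i0, h, map_zero]
  obtain ⟨G, b, hG, hab, hc⟩ := h2 K d I a' hne
  exact ⟨d, φ, hφ, b, ⟨G, hG, fun i => by rw [ha' i, hab i]⟩, hc⟩

end Pool.Agent.L0h57.FR
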