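import Mathlib
import Pool.Agent.L0h79.FR.Defs

/-!
# Project FR: modules GLUE, TUBE
-/

set_option autoImplicit false

namespace Pool.Agent.L0h57.FR

open Filter Topology Pool.Agent.TH932.Germs Pool.Agent.TH796.AL Pool.Agent.L0h79.FR

/-! ### GLUE -/

/-- rational numbers which are close and have small denominators are equal
(as `Pool.Agent.TH796.AL.eq_of_close`) -/
theorem eq_of_close' {a b : ℚ} {X : ℝ} (ha : (a.den : ℝ) ≤ X) (hb : (b.den : ℝ) ≤ X)
    (h : |(a : ℝ) - b| * (X * X) < 1) : a = b := by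
  by_contra hne
  have hap : (0 : ℝ) < a.den := by exact_mod_cast a.den_pos
  have hbp : (0 : ℝ) < b.den := by exact_mod_cast b.den_pos
  have h2 : (((a - b) * (a.den * b.den) : ℚ) : ℝ) = ((a.num * b.den - b.num * a.den : ℤ) : ℝ) := by
    have e1 : a * a.den = a.num := Rat.mul_den_eq_num a
    have e2 : b * b.den = b.num := Rat.mul_den_eq_num b
    have : (a - b) * (a.den * b.den) = ((a.num * b.den - b.num * a.den : ℤ) : ℚ) := by
      push_cast
      rw [← e1, ← e2]
      ring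
    exact_mod_cast this
  have h1 : a - b ≠ 0 := sub_ne_zero.2 hne
  have h3 : (a.num * b.den - b.num * a.den : ℤ) ≠ 0 := by
    intro h0
    rw [h0] at h2
    have h4 : (a - b) * (a.den * b.den) = 0 := by exact_mod_cast h2
    rcases mul_eq_zero.1 h4 with h5 | h5
    · exact h1 h5
    · have : (a.den : ℚ) * b.den ≠ 0 := by
        have := a.den_pos
        have := b.den_pos
        positivity
      exact this h5
  have h4 : (1 : ℝ) ≤ |((a.num * b.den - b.num * a.den : ℤ) : ℝ)| := by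
    rw [← Int.cast_abs]
    exact_mod_cast Int.one_le_abs h3
  rw [← h2] at h4
  push_cast at h4
  rw [abs_mul, abs_of_pos (mul_pos hap hbp)] at h4
  have hX : 0 ≤ X := hap.le.trans ha
  have h5 : |(a : ℝ) - b| * (a.den * b.den) ≤ |(a : ℝ) - b| * (X * X) := by gcongr
  linarith

/-- GLUE -/
theorem glue : S_GLUE := by
  intro x H hH h
  -- good approximations for all large scales
  have h1 : ∃ N0 : ℕ, ∀ N : ℕ, N0 ≤ N → ∃ q : ℚ, (q.den : ℝ) ≤ Real.exp (H * N) ∧
      |x - q| ≤ Real.exp (-((2 * H + 2) * N)) := by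
    by_contra hcon
    push Not at hcon
    choose N hN hbad using (fun n => hcon (max n 2))
    have hT : Tendsto N atTop atTop :=
      tendsto_atTop_mono (fun n => (le_max_left n 2).trans (hN n)) tendsto_id
    obtain ⟨g, hg1, hg2⟩ := h N (fun n => (le_max_right _ _).trans (hN n)) hT
    obtain ⟨n, hn1, hn2⟩ := (hg1.and hg2).exists
    exact absurd hn2 (not_le.2 (hbad n (g n) hn1))
  obtain ⟨N0, hN0⟩ := h1
  choose q hq1 hq2 using hN0
  -- they are constant
  let N1 : ℕ := max N0 (⌈H⌉₊ + 1)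
  have hN1 : N0 ≤ N1 := le_max_left _ _
  have hH1 : H + 1 ≤ (N1 : ℝ) := by
    have h2 : ((⌈H⌉₊ + 1 : ℕ) : ℝ) ≤ (N1 : ℝ) := by exact_mod_cast le_max_right _ _
    have h3 := Nat.le_ceil H
    push_cast at h2
    linarith
  have hstep : ∀ k : ℕ, q (N1 + k) (hN1.trans (Nat.le_add_right _ _)) =
      q (N1 + (k + 1)) (hN1.trans (Nat.le_add_right _ _)) := by
    intro k
    have hk : (N1 : ℝ) ≤ ((N1 + k : ℕ) : ℝ) := by exact_mod_cast Nat.le_add_right _ _
    have e0 : ((N1 + (k + 1) : ℕ) : ℝ) = ((N1 + k : ℕ) : ℝ) + 1 := by push_cast; ring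
    have a1 := hq1 (N1 + k) (hN1.trans (Nat.le_add_right _ _))
    have a2 := hq2 (N1 + k) (hN1.trans (Nat.le_add_right _ _))
    have b1 := hq1 (N1 + (k + 1)) (hN1.trans (Nat.le_add_right _ _))
    have b2 := hq2 (N1 + (k + 1)) (hN1.trans (Nat.le_add_right _ _))
    rw [e0] at b1 b2
    generalize ((N1 + k : ℕ) : ℝ) = M at a1 a2 b1 b2 hk
    refine eq_of_close' (X := Real.exp (H * (M + 1))) (a1.trans ?_) b1 ?_
    · apply Real.exp_le_exp.2
      nlinarith
    · have h5 : Real.exp (-((2 * H + 2) * (M + 1))) ≤ Real.exp (-((2 * H + 2) * M)) := by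
        apply Real.exp_le_exp.2
        nlinarith
      have h6 : |((q (N1 + k) (hN1.trans (Nat.le_add_right _ _)) : ℚ) : ℝ) -
          (q (N1 + (k + 1)) (hN1.trans (Nat.le_add_right _ _)) : ℚ)| ≤
          2 * Real.exp (-((2 * H + 2) * M)) := by
        have h7 := abs_sub_le ((q (N1 + k) (hN1.trans (Nat.le_add_right _ _)) : ℚ) : ℝ) x
          ((q (N1 + (k + 1)) (hN1.trans (Nat.le_add_right _ _)) : ℚ) : ℝ)
        rw [abs_sub_comm _ x] at h7
        linarith
      have h8 : 2 * Real.exp (-((2 * H + 2) * M)) *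
          (Real.exp (H * (M + 1)) * Real.exp (H * (M + 1))) = 2 * Real.exp (2 * H - 2 * M) := by
        rw [mul_assoc, ← Real.exp_add, ← Real.exp_add]
        congr 2
        ring
      have h9 : Real.exp (2 * H - 2 * M) ≤ Real.exp (-2) := by
        apply Real.exp_le_exp.2
        linarith
      have h10 : Real.exp (-2) < 1 / 2 := by
        rw [Real.exp_neg, one_div]
        apply inv_strictAnti₀ (by norm_num)
        have := Real.add_one_lt_exp (show (2 : ℝ) ≠ 0 by norm_num)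
        linarith
      have h11 : 0 ≤ Real.exp (H * (M + 1)) * Real.exp (H * (M + 1)) := by positivity
      calc _ ≤ 2 * Real.exp (-((2 * H + 2) * M)) *
            (Real.exp (H * (M + 1)) * Real.exp (H * (M + 1))) :=
            mul_le_mul_of_nonneg_right h6 h11
        _ < 1 := by rw [h8]; linarith
  have hconst : ∀ k : ℕ, q (N1 + k) (hN1.trans (Nat.le_add_right _ _)) = q N1 hN1 := by
    intro k
    induction k with
    | zero => rfl
    | succ k ih => rw [← hstep k, ih]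
  refine ⟨q N1 hN1, ?_⟩
  -- the difference tends to zero
  have h20 : ∀ k : ℕ, |x - (q N1 hN1 : ℚ)| ≤ Real.exp (-(k : ℝ)) := by
    intro k
    have h3 := hq2 (N1 + k) (hN1.trans (Nat.le_add_right _ _))
    rw [hconst k] at h3
    refine h3.trans (Real.exp_le_exp.2 ?_)
    have hk0 : (0 : ℝ) ≤ k := Nat.cast_nonneg _
    have hN0 : (0 : ℝ) ≤ N1 := Nat.cast_nonneg _
    push_cast
    nlinarith [mul_nonneg hH hk0, mul_nonneg hH hN0]
  have h21 : Tendsto (fun k : ℕ => Real.exp (-(k : ℝ))) atTop (𝓝 0) :=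
    Real.tendsto_exp_neg_atTop_nhds_zero.comp tendsto_natCast_atTop_atTop
  have h22 : |x - (q N1 hN1 : ℚ)| ≤ 0 := ge_of_tendsto' h21 h20
  exact sub_eq_zero.1 (abs_eq_zero.1 (le_antisymm h22 (abs_nonneg _)))

/-! ### TUBE -/

section tube

variable {m : ℕ}

theorem log_pos' (B : Base m) (t : Fin m) : Real.log 2 ≤ Real.log (B.P t) := by
  have h := B.two t
  exact Real.log_le_log (by norm_num) (by exact_mod_cast h)

/-- all valuations are bounded by the norm -/
theorem lv_le (B : Base m) (x : Fin m → ℝ) (u : Option (Fin m)) :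
    |lv B u x| ≤ (∑ t, Real.log (B.P t)) * ‖x‖ := by
  have hl : ∀ t, 0 ≤ Real.log (B.P t) := fun t =>
    (Real.log_pos (by norm_num)).le.trans (log_pos' B t)
  have h1 : ∀ t, |x t * Real.log (B.P t)| ≤ Real.log (B.P t) * ‖x‖ := by
    intro t
    rw [abs_mul, abs_of_nonneg (hl t), mul_comm]
    exact mul_le_mul_of_nonneg_left (norm_le_pi_norm x t) (hl t)
  cases u with
  | none =>
    show |-∑ t, x t * Real.log (B.P t)| ≤ _
    rw [abs_neg, Finset.sum_mul]
    exact (Finset.abs_sum_le_sum_abs _ _).trans (Finset.sum_le_sum fun t _ => h1 t)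
  | some t =>
    show |x t * Real.log (B.P t)| ≤ _
    refine (h1 t).trans (mul_le_mul_of_nonneg_right ?_ (norm_nonneg _))
    exact Finset.single_le_sum (f := fun t => Real.log (B.P t)) (fun t _ => hl t)
      (Finset.mem_univ t)

/-- the norm is bounded by the valuations -/
theorem norm_le_lv (B : Base m) (a : Fin m → ℝ) (c : ℝ) (h : ∀ u, |lv B u a| ≤ c) :
    ‖a‖ ≤ c / Real.log 2 := by
  have h2 : 0 < Real.log 2 := Real.log_pos (by norm_num)
  have hc : 0 ≤ c := (abs_nonneg _).trans (h none)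
  rw [pi_norm_le_iff_of_nonneg (div_nonneg hc h2.le)]
  intro t
  have h3 : |a t * Real.log (B.P t)| ≤ c := h (some t)
  have h4 := log_pos' B t
  rw [abs_mul, abs_of_pos (h2.trans_le h4)] at h3
  rw [le_div_iff₀ h2, Real.norm_eq_abs]
  exact (mul_le_mul_of_nonneg_left h4 (abs_nonneg _)).trans h3

theorem pair (V W : Submodule ℝ (Fin m → ℝ)) (h : Disjoint V W) :
    ∃ K : ℝ, 0 ≤ K ∧ ∀ v ∈ V, ∀ w ∈ W, ‖v‖ ≤ K * ‖v - w‖ := by
  let f : (V × W) →ₗ[ℝ] (Fin m → ℝ) :=
    V.subtype.comp (LinearMap.fst ℝ V W) - W.subtype.comp (LinearMap.snd ℝ V W)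
  have hf : ∀ x : V × W, f x = (x.1 : Fin m → ℝ) - (x.2 : Fin m → ℝ) := fun x => rfl
  have hker : LinearMap.ker f = ⊥ := by
    rw [LinearMap.ker_eq_bot']
    rintro ⟨⟨v, hv⟩, ⟨w, hw⟩⟩ hx
    rw [hf] at hx
    have hvw : v = w := sub_eq_zero.1 hx
    subst hvw
    have h0 : v = 0 := Submodule.disjoint_def.1 h v hv hw
    subst h0
    rfl
  obtain ⟨K, hK, hA⟩ := f.exists_antilipschitzWith hker
  refine ⟨K, K.2, ?_⟩
  intro v hv w hw
  have h1 := hA.le_mul_dist (⟨v, hv⟩, ⟨w, hw⟩) 0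
  rw [map_zero, dist_zero_right, dist_zero_right, hf] at h1
  refine le_trans ?_ h1
  exact (norm_fst_le ((⟨v, hv⟩, ⟨w, hw⟩) : V × W))

end tube

/-- TUBE -/
theorem tube : S_TUBE := by
  intro m B k V hV
  have key : ∀ i j : Fin k, ∃ K : ℝ, 0 ≤ K ∧ (i ≠ j → ∀ v ∈ V i, ∀ w ∈ V j,
      ‖v‖ ≤ K * ‖v - w‖) := by
    intro i j
    by_cases hij : i = j
    · exact ⟨0, le_rfl, fun h => absurd hij h⟩
    · obtain ⟨K, hK, hK2⟩ := pair (V i) (V j) (hV i j hij)
      exact ⟨K, hK, fun _ => hK2⟩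
  choose K hK0 hK using key
  let Ks : ℝ := ∑ i, ∑ j, K i j
  have hKs : ∀ i j, K i j ≤ Ks := by
    intro i j
    have h1 : K i j ≤ ∑ j, K i j :=
      Finset.single_le_sum (f := fun j => K i j) (fun j _ => hK0 i j) (Finset.mem_univ j)
    have h2 : ∑ j, K i j ≤ Ks := Finset.single_le_sum (f := fun i => ∑ j, K i j)
      (fun i _ => Finset.sum_nonneg fun j _ => hK0 i j) (Finset.mem_univ i)
    exact h1.trans h2
  have hKs0 : 0 ≤ Ks := Finset.sum_nonneg fun i _ => Finset.sum_nonneg fun j _ => hK0 i j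
  have h2 : 0 < Real.log 2 := Real.log_pos (by norm_num)
  have hM0 : 0 ≤ ∑ t, Real.log (B.P t) :=
    Finset.sum_nonneg fun t _ => h2.le.trans (log_pos' B t)
  refine ⟨(∑ t, Real.log (B.P t)) * ((2 * Ks + 1) / Real.log 2), by positivity, ?_⟩
  intro c i j hij v hv w hw a a' ha ha' he u
  have n1 := norm_le_lv B a c ha
  have n2 := norm_le_lv B a' c ha'
  have e1 : v - w = a' - a := by
    have : v = w + a' - a := by rw [← he]; abel
    rw [this]; abel
  have n3 : ‖v‖ ≤ Ks * (2 * (c / Real.log 2)) := by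
    have h3 := hK i j hij v hv w hw
    rw [e1] at h3
    have h4 : ‖a' - a‖ ≤ 2 * (c / Real.log 2) := by
      have := norm_sub_le a' a
      linarith
    calc ‖v‖ ≤ K i j * ‖a' - a‖ := h3
      _ ≤ Ks * ‖a' - a‖ := mul_le_mul_of_nonneg_right (hKs i j) (norm_nonneg _)
      _ ≤ Ks * (2 * (c / Real.log 2)) := mul_le_mul_of_nonneg_left h4 hKs0
  have n4 : ‖v + a‖ ≤ (2 * Ks + 1) / Real.log 2 * c := by
    have h5 := norm_add_le v a
    have e2 : (2 * Ks + 1) / Real.log 2 * c = Ks * (2 * (c / Real.log 2)) + c / Real.log 2 := by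
      ring
    rw [e2]
    linarith
  calc |lv B u (v + a)| ≤ (∑ t, Real.log (B.P t)) * ‖v + a‖ := lv_le B _ u
    _ ≤ (∑ t, Real.log (B.P t)) * ((2 * Ks + 1) / Real.log 2 * c) :=
      mul_le_mul_of_nonneg_left n4 hM0
    _ = _ := by ring

end Pool.Agent.L0h57.FR
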